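import Mathlib

namespace Pool.Agent.Results.MP_d015f1_co.Zugzwang

open Function

/-- Some pattern of F (a finite list of cells with colours) appears, translated, in q. -/
def Appears {A : Type} (F : List (List (ℤ × A))) (q : ℤ → Option A) : Prop :=
  ∃ p ∈ F, ∃ i : ℤ, ∀ c ∈ p, q (i + c.1) = some c.2

/-- Positions of the Domino game on E that are winning for A. The flag pass says whether passing is
allowed; the next argument is true when A is to move and false when B is to move. -/
inductive WinA {A : Type} (F : List (List (ℤ × A))) (E : Set ℤ) (pass : Bool) :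
    Bool → (ℤ → Option A) → Prop
  | final (t q) : Appears F q → WinA F E pass t q
  | moveA (q i a) : i ∈ E → q i = none → WinA F E pass false (update q i (some a)) →
      WinA F E pass true q
  | passA (q) : pass = true → WinA F E pass false q → WinA F E pass true q
  | allB (q) : (∃ i ∈ E, q i = none) →
      (∀ i a, i ∈ E → q i = none → WinA F E pass true (update q i (some a))) →
      (pass = true → WinA F E pass true q) → WinA F E pass false q

/-- The forbidden words 03, 12, 0222, 0232, 0002, 0102 on consecutive cells. -/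
def F : List (List (ℤ × Fin 4)) :=
  [[(0, 0), (1, 3)], [(0, 1), (1, 2)],
   [(0, 0), (1, 2), (2, 2), (3, 2)], [(0, 0), (1, 2), (2, 3), (3, 2)],
   [(0, 0), (1, 0), (2, 0), (3, 2)], [(0, 0), (1, 1), (2, 0), (3, 2)]]

abbrev Pos := ℤ → Option (Fin 4)

lemma appears_iff (q : Pos) : Appears F q ↔ ∃ i : ℤ,
    (q i = some 0 ∧ q (i + 1) = some 3) ∨ (q i = some 1 ∧ q (i + 1) = some 2) ∨
    (q i = some 0 ∧ q (i + 1) = some 2 ∧ q (i + 2) = some 2 ∧ q (i + 3) = some 2) ∨
    (q i = some 0 ∧ q (i + 1) = some 2 ∧ q (i + 2) = some 3 ∧ q (i + 3) = some 2) ∨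
    (q i = some 0 ∧ q (i + 1) = some 0 ∧ q (i + 2) = some 0 ∧ q (i + 3) = some 2) ∨
    (q i = some 0 ∧ q (i + 1) = some 1 ∧ q (i + 2) = some 0 ∧ q (i + 3) = some 2) := by
  simp [Appears, F, exists_or, or_imp, forall_and]

lemma strike (q : Pos) (i : ℤ) (a : Fin 4) (h : q i = none)
    (h2 : Appears F (update q i (some a))) : WinA F Set.univ false true q :=
  WinA.moveA q i a trivial h (WinA.final _ _ h2)

lemma hitL (q : Pos) (i : ℤ) (a : Fin 4) (ha : a = 0 ∨ a = 1) (h : q i = some a)
    (h2 : q (i + 1) = none) : WinA F Set.univ false true q := by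
  rcases ha with rfl | rfl
  · apply strike q (i + 1) 3 h2
    rw [appears_iff]
    exact ⟨i, by simp [h]⟩
  · apply strike q (i + 1) 2 h2
    rw [appears_iff]
    exact ⟨i, by simp [h]⟩

lemma hitR (q : Pos) (i : ℤ) (a : Fin 4) (ha : a = 2 ∨ a = 3) (h : q (i + 1) = some a)
    (h2 : q i = none) : WinA F Set.univ false true q := by
  rcases ha with rfl | rfl
  · apply strike q i 1 h2
    rw [appears_iff]
    exact ⟨i, by simp [h]⟩
  · apply strike q i 0 h2
    rw [appears_iff]
    exact ⟨i, by simp [h]⟩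

lemma forced (q : Pos) (i : ℤ) (h : q i = some 0) (h1 : q (i + 1) = none) (h2 : q (i + 2) = none)
    (hw : WinA F Set.univ false true (update q (i + 1) (some 2))) :
    WinA F Set.univ false false q := by
  refine WinA.allB q ⟨i + 1, trivial, h1⟩ ?_ (by simp)
  intro j a _ hj
  by_cases e : j = i + 1
  · subst e
    have e2 : update q (i + 1) (some a) (i + 1 + 1) = none := by
      rw [update_of_ne (by omega), ← h2]; congr 1; ring
    fin_cases a
    · exact hitL _ (i + 1) 0 (by simp) (by simp) e2
    · exact hitL _ (i + 1) 1 (by simp) (by simp) e2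
    · exact hw
    · apply WinA.final
      rw [appears_iff]
      exact ⟨i, by simp [h]⟩
  · have : j ≠ i := by
      rintro rfl
      simp [h] at hj
    exact hitL _ i 0 (by simp) (by rw [update_of_ne this.symm, h])
      (by rw [update_of_ne (Ne.symm e), h1])

lemma zug (q : Pos) (h0 : q 0 = some 0) (h1 : q 1 = some 2) (h2 : q 2 = some 2)
    (h3 : q 3 = some 0) (h4 : q 4 = some 2) (hn : ∀ j, j < 0 ∨ 4 < j → q j = none) :
    WinA F Set.univ false false q := by
  refine WinA.allB q ⟨5, trivial, hn 5 (by simp)⟩ ?_ (by simp)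
  intro j a _ hj
  have hj2 : j < 0 ∨ 4 < j := by
    by_contra hc
    have : j = 0 ∨ j = 1 ∨ j = 2 ∨ j = 3 ∨ j = 4 := by omega
    rcases this with rfl | rfl | rfl | rfl | rfl <;> simp_all
  have ha : (a = 0 ∨ a = 1) ∨ (a = 2 ∨ a = 3) := by revert a; decide
  rcases ha with ha | ha
  · by_cases e : j = -1
    · subst e
      apply strike _ (-2) 0 (by rw [update_of_ne (by omega)]; exact hn _ (by omega))
      rw [appears_iff]
      refine ⟨-2, ?_⟩
      rcases ha with rfl | rfl <;> simp [update, h0, h1]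
    · exact hitL _ j a ha (by simp) (by rw [update_of_ne (by omega)]; exact hn _ (by omega))
  · by_cases e : j = 5
    · subst e
      apply strike _ 6 2 (by rw [update_of_ne (by omega)]; exact hn _ (by omega))
      rw [appears_iff]
      refine ⟨3, ?_⟩
      rcases ha with rfl | rfl <;> simp [update, h3, h4]
    · exact hitR _ (j - 1) a ha (by simp) (by rw [update_of_ne (by omega)]; exact hn _ (by omega))

lemma star_win : WinA F Set.univ false true (fun _ => none) := by
  apply WinA.moveA _ 0 0 (Set.mem_univ _) rfl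
  apply forced _ 0 (by simp) (by simp) (by simp)
  apply WinA.moveA _ 3 0 (Set.mem_univ _) (by simp)
  apply forced _ 3 (by simp) (by simp) (by simp [update])
  apply WinA.moveA _ 2 2 (Set.mem_univ _) (by simp [update])
  apply zug <;> simp [update]
  intro j hj
  split_ifs <;> first | rfl | omega

abbrev C := Option (Fin 4)

def pr (w x : C) : Bool :=
  (w != some 0 || (x != none && x != some 3)) && (w != some 1 || (x != none && x != some 2)) &&
  (x != some 2 || w != none) && (x != some 3 || w != none)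

def loc (w x y z : C) : Bool :=
  pr w x && pr x y && pr y z &&
  (w != some 0 || x != some 2 || (y != some 2 && y != some 3) || (z != none && z != some 2)) &&
  (y != some 0 || z != some 2 || (x != some 0 && x != some 1) || (w != none && w != some 0))

def bad (w x y z : C) : Prop :=
  (w = some 0 ∧ x = some 3) ∨ (w = some 1 ∧ x = some 2) ∨
    (w = some 0 ∧ x = some 2 ∧ y = some 2 ∧ z = some 2) ∨
    (w = some 0 ∧ x = some 2 ∧ y = some 3 ∧ z = some 2) ∨
    (w = some 0 ∧ x = some 0 ∧ y = some 0 ∧ z = some 2) ∨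
    (w = some 0 ∧ x = some 1 ∧ y = some 0 ∧ z = some 2)

instance (w x y z : C) : Decidable (bad w x y z) := by unfold bad; infer_instance

/-- The invariant kept by B when passing is allowed. -/
def Safe (q : Pos) : Prop := ∀ i : ℤ, loc (q i) (q (i + 1)) (q (i + 2)) (q (i + 3)) = true

lemma loc_bad : ∀ w x y z : C, loc w x y z = true → ¬ bad w x y z := by decide +kernel

lemma safe_not (q : Pos) (h : Safe q) : ¬ Appears F q := by
  rw [appears_iff]
  rintro ⟨i, hi⟩
  exact loc_bad _ _ _ _ (h i) hi

def rep (a : Fin 4) (l2 l1 r1 r2 : C) : C × C :=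
  if a = 0 ∨ a = 1 then
    if r1 = none then (l1, some (a + 2))
    else if r1 = some 0 ∧ r2 = some 2 ∧ l1 = none then (some 1, r1) else (l1, r1)
  else
    if l1 = none then (some (a + 2), r1)
    else if l2 = some 0 ∧ l1 = some 2 ∧ r1 = none then (l1, some 3) else (l1, r1)

lemma rep_cases : ∀ (a : Fin 4) (l2 l1 r1 r2 : C), rep a l2 l1 r1 r2 = (l1, r1) ∨
    (l1 = none ∧ ∃ b, rep a l2 l1 r1 r2 = (some b, r1)) ∨
    (r1 = none ∧ ∃ b, rep a l2 l1 r1 r2 = (l1, some b)) := by decide +kernel

lemma keyL : ∀ c2 c3 c4 : C, loc c2 c3 c4 none = true → ∀ c6 : C, loc c3 c4 none c6 = true →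
    ∀ c7 : C, loc c4 none c6 c7 = true → ∀ a : Fin 4,
    (¬ bad c2 c3 c4 (some a) ∧ ¬ bad c3 c4 (some a) c6 ∧ ¬ bad c4 (some a) c6 c7) ∧
    loc c2 c3 (rep a c3 c4 c6 c7).1 (some a) = true ∧
    loc c3 (rep a c3 c4 c6 c7).1 (some a) (rep a c3 c4 c6 c7).2 = true ∧
    loc (rep a c3 c4 c6 c7).1 (some a) (rep a c3 c4 c6 c7).2 c7 = true ∧
    ∀ c1 : C, loc c1 c2 c3 c4 = true → loc c1 c2 c3 (rep a c3 c4 c6 c7).1 = true := by
  decide +kernel

lemma keyR : ∀ c3 c4 c6 : C, loc c3 c4 none c6 = true → ∀ c7 : C, loc c4 none c6 c7 = true →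
    ∀ c8 : C, loc none c6 c7 c8 = true → ∀ a : Fin 4, ¬ bad (some a) c6 c7 c8 ∧
    loc (some a) (rep a c3 c4 c6 c7).2 c7 c8 = true ∧
    ∀ c9 : C, loc c6 c7 c8 c9 = true → loc (rep a c3 c4 c6 c7).2 c7 c8 c9 = true := by
  decide +kernel

lemma reply (q : Pos) (h : Safe q) (j : ℤ) (a : Fin 4) (hj : q j = none) :
    ¬ Appears F (update q j (some a)) ∧ (Safe (update q j (some a)) ∨
      ∃ k b, update q j (some a) k = none ∧ Safe (update (update q j (some a)) k (some b))) := by
  have h1 := h (j - 4)
  have h2 := h (j - 3)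
  have h3 := h (j - 2)
  have h4 := h (j - 1)
  have h5 := h j
  have h6 := h (j + 1)
  ring_nf at h1 h2 h3 h4 h5 h6
  rw [hj] at h2 h3 h4 h5
  obtain ⟨⟨b1, b2, b3⟩, l1, l2, l3, l4⟩ := keyL _ _ _ h2 _ h3 _ h4 a
  obtain ⟨b4, l5, l6⟩ := keyR _ _ _ h3 _ h4 _ h5 a
  replace l4 := l4 _ h1
  replace l6 := l6 _ h6
  constructor
  · rw [appears_iff]
    rintro ⟨i, hi⟩
    change bad (update q j (some a) i) (update q j (some a) (i + 1)) (update q j (some a) (i + 2))
      (update q j (some a) (i + 3)) at hi
    by_cases e : i = j - 3 ∨ i = j - 2 ∨ i = j - 1 ∨ i = j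
    · rcases e with rfl | rfl | rfl | rfl <;> ring_nf at hi <;>
        simp (disch := omega) only [update_of_ne, update_self] at hi <;> contradiction
    · simp (disch := omega) only [update_of_ne] at hi
      exact loc_bad _ _ _ _ (h i) hi
  · set r := rep a (q (-2 + j)) (q (-1 + j)) (q (1 + j)) (q (2 + j)) with hr
    have S : Safe (update (update (update q j (some a)) (-1 + j) r.1) (1 + j) r.2) := by
      intro i
      by_cases e : i = j - 4 ∨ i = j - 3 ∨ i = j - 2 ∨ i = j - 1 ∨ i = j ∨ i = j + 1
      · rcases e with rfl | rfl | rfl | rfl | rfl | rfl <;> ring_nf <;>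
          simp (disch := omega) only [update_of_ne, update_self] <;> assumption
      · simp (disch := omega) only [update_of_ne]
        exact h i
    have u1 : update (update q j (some a)) (-1 + j) (q (-1 + j)) = update q j (some a) := by
      rw [update_eq_self_iff, update_of_ne (by omega)]
    rcases rep_cases a (q (-2 + j)) (q (-1 + j)) (q (1 + j)) (q (2 + j)) with
      e | ⟨e0, b, e⟩ | ⟨e0, b, e⟩
    · left
      rw [hr, e, u1, update_eq_self_iff.2 (by rw [update_of_ne (by omega)])] at S
      exact S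
    · right
      refine ⟨-1 + j, b, by rw [update_of_ne (by omega), e0], ?_⟩
      rw [hr, e, update_eq_self_iff.2
        (by rw [update_of_ne (by omega), update_of_ne (by omega)])] at S
      exact S
    · right
      refine ⟨1 + j, b, by rw [update_of_ne (by omega), e0], ?_⟩
      rw [hr, e, u1] at S
      exact S

lemma pass_lose : ∀ t q, WinA F Set.univ true t q →
    (t = true → ¬ Safe q) ∧ (t = false → ¬ Appears F q →
      ¬ (Safe q ∨ ∃ k b, q k = none ∧ Safe (update q k (some b)))) := by
  intro t q h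
  induction h with
  | final t q ha => exact ⟨fun _ hs => safe_not q hs ha, fun _ hn => absurd ha hn⟩
  | moveA q i a _ hi _ ih =>
    refine ⟨fun _ hs => ?_, by simp⟩
    exact ih.2 rfl (reply q hs i a hi).1 (reply q hs i a hi).2
  | passA q _ _ ih =>
    refine ⟨fun _ hs => ?_, by simp⟩
    exact ih.2 rfl (safe_not q hs) (Or.inl hs)
  | allB q _ _ _ ih1 ih2 =>
    refine ⟨by simp, fun _ _ => ?_⟩
    rintro (hs | ⟨k, b, hk, hs⟩)
    · exact (ih2 rfl).1 rfl hs
    · exact (ih1 k b trivial hk).1 rfl hs

theorem result : WinA F Set.univ false true (fun _ => none) ∧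
    ¬ WinA F Set.univ true true (fun _ => none) :=
  ⟨star_win, fun h => (pass_lose _ _ h).1 rfl (fun _ => rfl)⟩

end Pool.Agent.Results.MP_d015f1_co.Zugzwang
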